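import Mathlib
import Pool.Agent.H6.Wui

set_option autoImplicit false

namespace Pool.Agent.Results.MP_f51a03_co.Counter

open Pool.Agent.H6.Wui

/-- `G` is a total weak unit interval graph: every near/far labelling of its edges
(`true` = near) has a weak unit interval representation. -/
def Total {V : Type} (G : SimpleGraph V) : Prop :=
  ∀ l : G.edgeSet → Bool, ∃ (I : V → ℝ) (t : ℝ), 0 < t ∧
    ∀ (u v : V) (h : G.Adj u v), (|I u - I v| ≤ t ↔ l ⟨s(u, v), h⟩ = true)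

def EL : List (Fin 14 × Fin 14) :=
  [(0, 1), (3, 5), (0, 6), (1, 6), (5, 6), (2, 7), (4, 7), (5, 7), (1, 8), (2, 8), (3, 8), (0,
   9), (1, 9), (4, 9), (0, 10), (2, 10), (3, 10), (1, 11), (3, 11), (4, 11), (0, 12), (1, 12),
   (2, 12), (0, 13), (3, 13), (4, 13)]

def G : SimpleGraph (Fin 14) := SimpleGraph.fromRel fun u v => (u, v) ∈ EL

instance : DecidableRel G.Adj := fun u v =>
  inferInstanceAs (Decidable (u ≠ v ∧ ((u, v) ∈ EL ∨ (v, u) ∈ EL)))

lemma card_G : G.edgeSet.ncard = 26 := by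
  have a : G.edgeSet.ncard = G.edgeFinset.card := by
    rw [← SimpleGraph.coe_edgeFinset, Set.ncard_coe_finset]
  have b := G.sum_degrees_eq_twice_card_edges
  have c : ∑ v, G.degree v = 52 := by decide +kernel
  omega

lemma rep (m : Sym2 (Fin 14) → Bool) :
    ∃ I : Fin 14 → ℝ, ∀ e ∈ EL, (|I e.1 - I e.2| ≤ 7 ↔ m s(e.1, e.2) = true) := by
  obtain ⟨c, h1, h2, H⟩ := core (m s(0, 1)) (m s(3, 5))
    fun τ a => m s(Fin.ofNat 14 a, Fin.ofNat 14 (6 + TL.idxOf τ))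
  obtain ⟨w0, a0, b0, c0⟩ := H (0, 1, 5) (by decide)
  obtain ⟨w1, a1, b1, c1⟩ := H (2, 4, 5) (by decide)
  obtain ⟨w2, a2, b2, c2⟩ := H (1, 2, 3) (by decide)
  obtain ⟨w3, a3, b3, c3⟩ := H (0, 1, 4) (by decide)
  obtain ⟨w4, a4, b4, c4⟩ := H (0, 2, 3) (by decide)
  obtain ⟨w5, a5, b5, c5⟩ := H (1, 3, 4) (by decide)
  obtain ⟨w6, a6, b6, c6⟩ := H (0, 1, 2) (by decide)
  obtain ⟨w7, a7, b7, c7⟩ := H (0, 3, 4) (by decide)
  have e1 := near_iff c 0 1
  have e2 := near_iff c 3 5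
  rw [h1] at e1
  rw [h2] at e2
  refine ⟨![pos c 0, pos c 1, pos c 2, pos c 3, pos c 4, pos c 5, w0, w1, w2, w3, w4, w5, w6, w7],
    ?_⟩
  simp only [EL, List.forall_mem_cons]
  exact ⟨e1, e2, a0, b0, c0, a1, b1, c1, a2, b2, c2, a3, b3, c3, a4, b4, c4, a5, b5, c5, a6, b6, c6, a7, b7, c7, by simp⟩

lemma total_G : Total G := by
  intro l
  classical
  obtain ⟨I, hI⟩ := rep fun e => if h : e ∈ G.edgeSet then l ⟨e, h⟩ else false
  refine ⟨I, 7, by norm_num, fun u v h => ?_⟩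
  have h' : s(u, v) ∈ G.edgeSet := h
  rcases ((SimpleGraph.fromRel_adj _ _ _).1 h).2 with k | k
  · have := hI _ k
    simp only [dif_pos h'] at this
    exact this
  · have := hI _ k
    simp only [Sym2.eq_swap (a := v) (b := u), dif_pos h'] at this
    rw [abs_sub_comm]
    exact this

theorem result :
    ¬ ∀ (n : ℕ) (G : SimpleGraph (Fin n)), 2 ≤ n → Total G → G.edgeSet.ncard + 3 ≤ 2 * n := by
  intro h
  have := h 14 G (by norm_num) total_G
  rw [card_G] at this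
  omega

end Pool.Agent.Results.MP_f51a03_co.Counter
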